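import Pool.Agent.Helper40.AC.All

/-!
# The approximation conjecture for submanifolds of real algebraic varieties is false

MP_4c91e2_ag, Q1, negated form, in full.  There are a nonsingular real algebraic variety `V`, a
compact smooth submanifold `M` of `V` whose inclusion has algebraic unoriented bordism class, and
a neighbourhood of the inclusion (even in the `C^0` topology) such that no smooth isotopy of `M`
in `V` which stays in this neighbourhood carries `M` onto a nonsingular Zariski locally closed
subset of `V`.

All notions of the statement are defined in Part 0 of `Pool/Agent/Helper40/AC/Defs.lean`.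

The example.  `V = (S¹)⁴ × S⁴ ⊆ ℝ¹³` and `M = {(x₁, x₂, (v, τ)) : a(x₁) v + v a(x₂) = 0}`, where
`x₁, x₂ ∈ (S¹)²`, `v` is a quaternion, and `a` is an explicit Nash map of degree one from the torus
`(S¹)²` to the sphere of unit imaginary quaternions.  `M` is a bundle of 2-spheres over the torus
and is diffeomorphic (by a regular map) to a compact nonsingular variety, so that its class is
algebraic.  The normal plane bundle of `M` in `V` restricted to the torus `(S¹)⁴ × {pole}` is the
plane bundle `{v : a(x₁) v = v a(x₂)}` whose complexification is `E ⊕ E^*` with `c₁(E)² ≠ 0`.  If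
`M` could be moved to a nonsingular Zariski locally closed `Z`, this complexification would be the
pullback, along a map `(S¹)⁴ → ℂ⁸` with coordinates `(x, y)`, of `J/J²` for the ideal `J` of `Z` in
`ℂ[X₁, …, X₈]`; a stable computation with finite projective resolutions over this polynomial ring
shows that the second Chern number of such a bundle is zero.
-/

set_option autoImplicit false

namespace Pool.Agent.Results.MP_4c91e2_ag.ApproximationFails

open Pool.Agent.Helper40.AC

/-- The approximation conjecture is false (the negated form of Q1 of MP_4c91e2_ag). -/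
theorem result :
    ∃ (ι : Type) (_ : Fintype ι) (V M : Set (ι → ℝ)) (d n : ℕ),
      NonsingVariety V d ∧ M ⊆ V ∧ IsCompact M ∧ SmoothSubmanifold M n ∧
      AlgebraicBordismClass V n M ∧
      ∃ δ : ℝ, 0 < δ ∧ ∀ H : (ι → ℝ) → ℝ → (ι → ℝ), SmoothIsotopyIn V M H →
        (∀ x ∈ M, ∀ t ∈ Set.Icc (0 : ℝ) 1, dist (H x t) x < δ) →
        ¬ ∃ e : ℕ, NonsingLocClosed ((fun x => H x 1) '' M) e := by
  obtain ⟨h1, M, h2, -, h4, h5, h6, h7⟩ := all_ok
  exact ⟨Idx, inferInstance, VV, M, 8, 6, h1, h2, h4, h5, h6, h7⟩

end Pool.Agent.Results.MP_4c91e2_ag.ApproximationFails
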